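import Mathlib
import Pool.Agent.W458.FJ.Stm

set_option autoImplicit false

namespace Pool.Agent.W851.FJ.Z2

open MvPolynomial Pool.Agent.W458.FJ

/-- the kernel of the substitution that kills the variables with index `< j` -/
noncomputable def sub (j : ℕ) : MvPolynomial (Fin 3) ℂ →ₐ[ℂ] MvPolynomial (Fin 3) ℂ :=
  aeval (fun i : Fin 3 => if (i : ℕ) < j then 0 else X i)

noncomputable def P (j : ℕ) : Ideal (MvPolynomial (Fin 3) ℂ) := RingHom.ker (sub j)

instance (j : ℕ) : (P j).IsPrime := RingHom.ker_isPrime _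

theorem sub_X (j : ℕ) (i : Fin 3) : sub j (X i) = if (i : ℕ) < j then 0 else X i := by
  unfold sub; rw [aeval_X]

theorem P_lt (j : ℕ) (hj : j < 3) : P j < P (j + 1) := by
  refine lt_of_le_of_ne ?_ ?_
  · intro p hp
    have hp' : sub j p = 0 := hp
    show sub (j + 1) p = 0
    have : (sub (j + 1)).comp (sub j) = sub (j + 1) := by
      apply MvPolynomial.algHom_ext
      intro i
      rw [AlgHom.comp_apply, sub_X, sub_X]
      split_ifs with h1 h2 h2
      · rw [map_zero]
      · omega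
      · rw [sub_X, if_pos h2]
      · rw [sub_X, if_neg h2]
    rw [← this, AlgHom.comp_apply, hp', map_zero]
  · intro h
    have h1 : (X ⟨j, hj⟩ : MvPolynomial (Fin 3) ℂ) ∈ P (j + 1) := by
      show sub (j + 1) _ = 0
      rw [sub_X, if_pos (by simp)]
    rw [← h] at h1
    have h2 : sub j (X ⟨j, hj⟩) = 0 := h1
    rw [sub_X, if_neg (by simp)] at h2
    exact X_ne_zero _ h2

theorem three_le : 3 ≤ (P 3).height := by
  have h0 := Ideal.height_add_one_le_of_lt_of_isPrime (P_lt 0 (by norm_num))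
  have h1 := Ideal.height_add_one_le_of_lt_of_isPrime (P_lt 1 (by norm_num))
  have h2 := Ideal.height_add_one_le_of_lt_of_isPrime (P_lt 2 (by norm_num))
  calc (3 : ℕ∞) = 0 + 1 + 1 + 1 := by norm_num
    _ ≤ (P 0).height + 1 + 1 + 1 := by gcongr; exact zero_le
    _ ≤ (P 1).height + 1 + 1 := by gcongr
    _ ≤ (P 2).height + 1 := by gcongr
    _ ≤ (P 3).height := h2

theorem mem_P3 (p : MvPolynomial (Fin 3) ℂ) : p ∈ P 3 ↔ eval 0 p = 0 := by
  have : ∀ p : MvPolynomial (Fin 3) ℂ, sub 3 p = C (eval 0 p) := by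
    intro p
    have h : sub 3 = (Algebra.ofId ℂ (MvPolynomial (Fin 3) ℂ)).comp (aeval (0 : Fin 3 → ℂ)) := by
      apply MvPolynomial.algHom_ext
      intro i
      rw [sub_X, if_pos i.2, AlgHom.comp_apply, aeval_X]
      simp
    rw [h]
    rfl
  show sub 3 p = 0 ↔ _
  rw [this p]
  exact C_eq_zero

theorem common (g₁ g₂ : MvPolynomial (Fin 3) ℂ) (h1 : eval 0 g₁ = 0) (h2 : eval 0 g₂ = 0) :
    ∃ w : Fin 3 → ℂ, w ≠ 0 ∧ eval w g₁ = 0 ∧ eval w g₂ = 0 := by
  by_contra hcon
  push Not at hcon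
  set s : Finset (MvPolynomial (Fin 3) ℂ) := {g₁, g₂} with hs
  have hle : Ideal.span (s : Set (MvPolynomial (Fin 3) ℂ)) ≤ P 3 := by
    rw [Ideal.span_le]
    intro x hx
    rw [hs] at hx
    simp only [Finset.coe_insert, Finset.coe_singleton, Set.mem_insert_iff,
      Set.mem_singleton_iff] at hx
    rcases hx with rfl | rfl
    · exact (mem_P3 _).2 h1
    · exact (mem_P3 _).2 h2
  have hrad : P 3 ≤ (Ideal.span (s : Set (MvPolynomial (Fin 3) ℂ))).radical := by
    rw [← vanishingIdeal_zeroLocus_eq_radical (K := ℂ)]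
    intro p hp
    rw [mem_vanishingIdeal_iff]
    intro x hx
    have hx0 : x = 0 := by
      by_contra hne
      rw [mem_zeroLocus_iff] at hx
      have e1 := hx g₁ (Ideal.subset_span (by simp [hs]))
      have e2 := hx g₂ (Ideal.subset_span (by simp [hs]))
      exact hcon x hne e1 e2
    rw [hx0]
    exact (mem_P3 p).1 hp
  have hmin : P 3 ∈ (Ideal.span (s : Set (MvPolynomial (Fin 3) ℂ))).minimalPrimes := by
    refine ⟨⟨inferInstance, hle⟩, ?_⟩
    rintro J ⟨hJ, hJ2⟩ _
    exact hrad.trans (hJ.radical_le_iff.2 hJ2)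
  have := Ideal.height_le_card_of_mem_minimalPrimes_span_finset hmin
  have hc : (s.card : ℕ∞) ≤ 2 := by
    exact_mod_cast Finset.card_le_two
  have h3 := three_le.trans (this.trans hc)
  exact absurd h3 (by norm_num)

section

variable {ι : Type} [DecidableEq ι] (e : Fin 3 → ι)

/-- restriction to three variables -/
noncomputable def phi : MvPolynomial ι ℂ →ₐ[ℂ] MvPolynomial (Fin 3) ℂ :=
  aeval (fun i => ∑ j : Fin 3, if e j = i then X j else 0)

/-- extension of a vector -/
noncomputable def ext (w : Fin 3 → ℂ) : ι → ℂ := fun i => ∑ j : Fin 3, if e j = i then w j else 0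

theorem phi_X (i : ι) : phi e (X i) = ∑ j : Fin 3, if e j = i then X j else 0 := by
  unfold phi; rw [aeval_X]

theorem key (w : Fin 3 → ℂ) (f : MvPolynomial ι ℂ) : eval w (phi e f) = eval (ext e w) f := by
  have h : ((aeval w : MvPolynomial (Fin 3) ℂ →ₐ[ℂ] ℂ).comp (phi e))
      = (aeval (ext e w) : MvPolynomial ι ℂ →ₐ[ℂ] ℂ) := by
    apply MvPolynomial.algHom_ext
    intro i
    rw [AlgHom.comp_apply, phi_X, aeval_X, map_sum]
    unfold ext
    refine Finset.sum_congr rfl fun j _ => ?_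
    split_ifs
    · rw [aeval_X]
    · rw [map_zero]
  have h2 := DFunLike.congr_fun h f
  rw [AlgHom.comp_apply] at h2
  rw [← coe_aeval_eq_eval, ← coe_aeval_eq_eval]
  exact h2

end

theorem main : Z2 := by
  intro ι _ _ a ha d₁ d₂ hd1 hd2 f₁ f₂ hf1 hf2 K hK
  obtain ⟨e, he, hinj⟩ : ∃ e : Fin 3 → ι, (∀ j, e j ∈ K) ∧ Function.Injective e := by
    obtain ⟨T, hT, hTc⟩ := Finset.exists_subset_card_eq hK
    let eq := (Finset.equivFinOfCardEq hTc).symm
    refine ⟨fun j => (eq j : ι), fun j => hT (eq j).2, fun x y hxy => ?_⟩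
    exact eq.injective (Subtype.ext hxy)
  have z0 : ∀ (f : MvPolynomial ι ℂ) (d : ℕ), 0 < d → IsWeightedHomogeneous a f d →
      eval 0 (phi e f) = 0 := by
    intro f d hd hf
    rw [key]
    have : ext e (0 : Fin 3 → ℂ) = (0 : ι → ℂ) := by
      funext i; simp [ext]
    rw [this]
    have h0 : coeff 0 f = 0 := by
      by_contra hne
      have := hf hne
      simp at this
      omega
    rw [← h0, ← constantCoeff_eq]
    simp [eval_zero]
  obtain ⟨w, hw, hw1, hw2⟩ := common (phi e f₁) (phi e f₂) (z0 f₁ d₁ hd1 hf1) (z0 f₂ d₂ hd2 hf2)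
  refine ⟨ext e w, ?_, ?_, ?_, ?_⟩
  · intro h0
    apply hw
    funext j
    have := congrFun h0 (e j)
    simp only [Pi.zero_apply, ext] at this
    rw [Finset.sum_eq_single j] at this
    · simpa using this
    · intro b _ hb
      rw [if_neg (fun h => hb (hinj h))]
    · simp
  · intro i hi
    refine Finset.sum_eq_zero fun j _ => ?_
    rw [if_neg]
    intro h
    exact hi (h ▸ he j)
  · rw [← key]; exact hw1
  · rw [← key]; exact hw2

end Pool.Agent.W851.FJ.Z2
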